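import Pool.Graph.R_pool_sql_team_seeded_3997aac3.Q18.Anz5

set_option autoImplicit false
set_option linter.style.haveILetI false
set_option linter.unusedSectionVars false

open scoped BigOperators Classical MonoidAlgebra commutatorElement
open Representation Pool.Agent.Helper884.IC Pool.Agent.Q18.Anz

noncomputable section

namespace Pool.Agent.AZ97

attribute [local instance] Fintype.ofFinite

/-- the average number of zeros, with the library's counts -/
def az (G : Type) [Group G] [Fintype G] : ℝ := (zz G : ℝ) / kk G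

lemma az_nonneg (G : Type) [Group G] [Fintype G] : 0 ≤ az G := by
  unfold az; positivity

lemma kk_posR (G : Type) [Group G] [Fintype G] : (0 : ℝ) < kk G := by exact_mod_cast kk_pos

/-- the homomorphism `x ↦ [x, h]` for `h` in the second centre -/
def del {G : Type} [Group G] (h : G)
    (hcen : ∀ x y, (x * h * x⁻¹ * h⁻¹) * y = y * (x * h * x⁻¹ * h⁻¹)) : G →* G where
  toFun := fun x => x * h * x⁻¹ * h⁻¹
  map_one' := by group
  map_mul' := by
    intro x y
    have h1 := hcen y x
    calc x * y * h * (x * y)⁻¹ * h⁻¹ = x * (y * h * y⁻¹ * h⁻¹) * h * x⁻¹ * h⁻¹ := by group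
      _ = (y * h * y⁻¹ * h⁻¹) * x * h * x⁻¹ * h⁻¹ := by rw [h1]
      _ = (y * h * y⁻¹ * h⁻¹) * (x * h * x⁻¹ * h⁻¹) := by group
      _ = _ := hcen y _

lemma del_apply {G : Type} [Group G] (h : G)
    (hcen : ∀ x y, (x * h * x⁻¹ * h⁻¹) * y = y * (x * h * x⁻¹ * h⁻¹)) (x : G) :
    del h hcen x = x * h * x⁻¹ * h⁻¹ := rfl

lemma card_del_le {G : Type} [Group G] [Fintype G] (h : G)
    (hcen : ∀ x y, (x * h * x⁻¹ * h⁻¹) * y = y * (x * h * x⁻¹ * h⁻¹)) :
    Nat.card (del h hcen).range ≤ (commutator G).index := by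
  have h1 : (del h hcen).ker.index = Nat.card (del h hcen).range := Subgroup.index_ker _
  rw [← h1]
  apply Nat.le_of_dvd (Nat.pos_of_ne_zero Subgroup.index_ne_zero_of_finite)
  apply Subgroup.index_dvd_of_le
  rw [commutator_def, Subgroup.commutator_le]
  intro a _ b _
  rw [MonoidHom.mem_ker, map_commutatorElement, commutatorElement_eq_one_iff_mul_comm]
  exact hcen a _

/-- arithmetic of a central step -/
lemma gain_arith {p s c zS zU nU kH kG zH zG : ℝ} (hp : 2 ≤ p) (hs : 1 ≤ s) (hc : 0 ≤ c)
    (hzS : 0 ≤ zS) (hkH : kH = s + c) (hkG : kG = p * s + c) (hzH : zH = zS + zU)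
    (hzG : p * zS + zU + c * (kG - kH) ≤ zG) (hn : nU = c * kH - zU) :
    (p - 1) * s * nU ≤ zG * kH - zH * kG := by
  have hkH0 : 0 ≤ kH := by rw [hkH]; linarith
  have e1 := mul_le_mul_of_nonneg_right hzG hkH0
  have e2 : (p * zS + zU + c * (kG - kH)) * kH - zH * kG - (p - 1) * s * nU
      = (p - 1) * c * zS := by
    rw [hn, hzH, hkG, hkH]; ring
  have e3 : 0 ≤ (p - 1) * c * zS := mul_nonneg (mul_nonneg (by linarith) hc) hzS
  linarith

/-- the gain when `h` becomes central -/
lemma gain_arith2 {p s c zS zU nU kH kG zH zG : ℝ} (hp : 2 ≤ p) (hs : 1 ≤ s) (hc : 0 ≤ c)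
    (hzS : 0 ≤ zS) (hkH : kH = s + c) (hkG : kG = p * s + c) (hzH : zH = zS + zU)
    (hzG : p * zS + zU + c * (kG - kH) ≤ zG) (hn : nU = c * kH - zU) (hnU : kH ≤ nU)
    (h4 : 4 * zH ≤ kH ^ 2) : kG * kH ≤ 8 * (zG * kH - zH * kG) := by
  have h0 := gain_arith hp hs hc hzS hkH hkG hzH hzG hn
  have hkH0 : 0 < kH := by rw [hkH]; linarith
  have hkG0 : 0 < kG := by rw [hkG]; nlinarith
  refine le_trans ?_ (mul_le_mul_of_nonneg_left h0 (by norm_num))
  rcases le_total c s with hcs | hcs
  · have h1 : kG ≤ 8 * ((p - 1) * s) := by rw [hkG]; nlinarith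
    have h2 : 0 ≤ (p - 1) * s := mul_nonneg (by linarith) (by linarith)
    calc kG * kH ≤ 8 * ((p - 1) * s) * kH := mul_le_mul_of_nonneg_right h1 hkH0.le
      _ ≤ 8 * ((p - 1) * s) * nU := mul_le_mul_of_nonneg_left hnU (by positivity)
      _ = _ := by ring
  · have h1 : kH ^ 2 / 4 ≤ nU := by
      have h2 : kH / 2 ≤ c := by linarith
      have h3 : kH / 2 * kH ≤ c * kH := mul_le_mul_of_nonneg_right h2 hkH0.le
      rw [hn]; nlinarith
    have h2 : kG ≤ 2 * ((p - 1) * s) * kH := by
      rw [hkG, hkH]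
      have h3 : p ≤ 2 * (p - 1) := by linarith
      have h4 : p * s * (s + c) ≤ 2 * ((p - 1) * s) * (s + c) := by
        have : 0 ≤ s * (s + c) := by positivity
        nlinarith
      have h5 : p * s + c ≤ p * s * (s + c) := by
        have h6 : 0 ≤ p * s := by nlinarith
        have h7 : p * s * 1 ≤ p * s * s := mul_le_mul_of_nonneg_left hs h6
        have h8 : 1 * c ≤ p * s * c := mul_le_mul_of_nonneg_right (by nlinarith) hc
        nlinarith
      linarith
    have h3 : 0 ≤ (p - 1) * s := mul_nonneg (by linarith) (by linarith)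
    calc kG * kH ≤ 2 * ((p - 1) * s) * kH * kH := mul_le_mul_of_nonneg_right h2 hkH0.le
      _ = 8 * ((p - 1) * s) * (kH ^ 2 / 4) := by ring
      _ ≤ 8 * ((p - 1) * s) * nU := mul_le_mul_of_nonneg_left h1 (by positivity)
      _ = _ := by ring

lemma index_quot_le {G : Type} [Group G] [Fintype G] (N : Subgroup G) [N.Normal] :
    (commutator (G ⧸ N)).index ≤ (commutator G).index := by
  have hf : Function.Surjective (QuotientGroup.mk' N) := QuotientGroup.mk'_surjective _
  have e1 : commutator (G ⧸ N) = (commutator G).map (QuotientGroup.mk' N) := by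
    rw [commutator_def, commutator_def, Subgroup.map_commutator,
      ← MonoidHom.range_eq_map, MonoidHom.range_eq_top.2 hf]
  rw [e1]
  exact Nat.le_of_dvd (Nat.pos_of_ne_zero Subgroup.index_ne_zero_of_finite)
    (Subgroup.index_map_dvd _ hf)

theorem gain {p : ℕ} [hp : Fact p.Prime] (m : ℕ) : ∀ (G : Type) [Group G] [Fintype G]
    (_ : IsPGroup p G) (h : G)
    (hcen : ∀ x y, (x * h * x⁻¹ * h⁻¹) * y = y * (x * h * x⁻¹ * h⁻¹)),
    Nat.card (del h hcen).range = p ^ (m + 1) →
    ∃ (H : Type) (_ : Group H) (_ : Fintype H), Nat.card G = p ^ (m + 1) * Nat.card H ∧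
      IsPGroup p H ∧ (commutator H).index ≤ (commutator G).index ∧ az H ≤ az G ∧
      (4 * az H ≤ kk H → az H + 1 / 8 ≤ az G) := by
  induction m with
  | zero =>
    intro G _ _ hG h hcen hD
    rw [zero_add, pow_one] at hD
    set D := (del h hcen).range with hDdef
    have hDc : ∀ d ∈ D, ∀ g, g * d = d * g := by
      rintro _ ⟨x, rfl⟩ g
      exact (hcen x g).symm
    obtain ⟨⟨z, hzD⟩, hz⟩ := exists_prime_orderOf_dvd_card' (G := D) p (by rw [hD])
    rw [Subgroup.orderOf_mk] at hz
    have hzc : ∀ g, g * z = z * g := hDc z hzD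
    haveI := zpowers_normal hzc
    have hDz : Subgroup.zpowers z = D := by
      apply Subgroup.eq_of_le_of_card_ge
      · rw [Subgroup.zpowers_le]; exact hzD
      · rw [Nat.card_zpowers, hz, hD]
    have hf : Function.Surjective (QuotientGroup.mk' (Subgroup.zpowers z)) :=
      QuotientGroup.mk'_surjective _
    have hk : ∀ y, QuotientGroup.mk' (Subgroup.zpowers z) y = 1 ↔ y ∈ Subgroup.zpowers z :=
      fun y => QuotientGroup.eq_one_iff y
    obtain ⟨s, c, zS, zU, nU, h1, h2, h3, h4, h5, h6, h7, h8, h9⟩ := data hp.out hf hzc hz hk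
    have hp2 : (2 : ℝ) ≤ p := by exact_mod_cast hp.out.two_le
    have e1 : IsConj h (h * z) := by
      obtain ⟨x, hx⟩ := hzD
      rw [del_apply] at hx
      refine isConj_iff.mpr ⟨x, ?_⟩
      rw [hzc, ← hx]
      group
    have e2 := h9 h e1
    have e3 : nz (QuotientGroup.mk' (Subgroup.zpowers z) h) = kk (G ⧸ Subgroup.zpowers z) := by
      apply nz_central
      intro q
      obtain ⟨a, rfl⟩ := QuotientGroup.mk_surjective q
      show ((a * h : G) : G ⧸ Subgroup.zpowers z) = ((h * a : G) : G ⧸ Subgroup.zpowers z)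
      rw [← div_eq_one, ← QuotientGroup.mk_div, QuotientGroup.eq_one_iff, hDz]
      refine ⟨a, ?_⟩
      rw [del_apply, div_eq_mul_inv]
      group
    rw [e3] at e2
    have hkG := kk_posR G
    have hkH := kk_posR (G ⧸ Subgroup.zpowers z)
    have key := gain_arith hp2 h1 h2 h3 h4 h5 h6 h7 h8
    refine ⟨G ⧸ Subgroup.zpowers z, inferInstance, inferInstance, ?_, hG.to_quotient _,
      index_quot_le _, ?_, ?_⟩
    · have h6 := Subgroup.card_eq_card_quotient_mul_card_subgroup (Subgroup.zpowers z)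
      rw [h6, Nat.card_zpowers, hz, zero_add, pow_one, mul_comm]
    · unfold az
      rw [div_le_div_iff₀ hkH hkG]
      have : 0 ≤ ((p : ℝ) - 1) * s * nU :=
        mul_nonneg (mul_nonneg (by linarith) (by linarith)) (by linarith)
      linarith
    · intro h10
      have h11 : 4 * (zz (G ⧸ Subgroup.zpowers z) : ℝ) ≤ (kk (G ⧸ Subgroup.zpowers z) : ℝ) ^ 2 := by
        unfold az at h10
        rw [← mul_div_assoc, div_le_iff₀ hkH] at h10
        nlinarith
      have h12 := gain_arith2 hp2 h1 h2 h3 h4 h5 h6 h7 h8 e2 h11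
      unfold az
      rw [div_add' _ _ _ hkH.ne', div_le_div_iff₀ hkH hkG]
      nlinarith
  | succ m ih =>
    intro G _ _ hG h hcen hD
    set D := (del h hcen).range with hDdef
    have hDc : ∀ d ∈ D, ∀ g, g * d = d * g := by
      rintro _ ⟨x, rfl⟩ g
      exact (hcen x g).symm
    obtain ⟨⟨z, hzD⟩, hz⟩ := exists_prime_orderOf_dvd_card' (G := D) p
      (by rw [hD]; exact dvd_pow_self p (by omega))
    rw [Subgroup.orderOf_mk] at hz
    have hzc : ∀ g, g * z = z * g := hDc z hzD
    haveI := zpowers_normal hzc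
    have hf : Function.Surjective (QuotientGroup.mk' (Subgroup.zpowers z)) :=
      QuotientGroup.mk'_surjective _
    have hk : ∀ y, QuotientGroup.mk' (Subgroup.zpowers z) y = 1 ↔ y ∈ Subgroup.zpowers z :=
      fun y => QuotientGroup.eq_one_iff y
    obtain ⟨s, c, zS, zU, nU, h1, h2, h3, h4, h5, h6, h7, h8, h9⟩ := data hp.out hf hzc hz hk
    have hp2 : (2 : ℝ) ≤ p := by exact_mod_cast hp.out.two_le
    have e1 : IsConj h (h * z) := by
      obtain ⟨x, hx⟩ := hzD
      rw [del_apply] at hx
      refine isConj_iff.mpr ⟨x, ?_⟩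
      rw [hzc, ← hx]
      group
    have e2 : (0 : ℝ) ≤ nU := le_trans (Nat.cast_nonneg _) (h9 h e1)
    have hkG := kk_posR G
    have hkH := kk_posR (G ⧸ Subgroup.zpowers z)
    have key := gain_arith hp2 h1 h2 h3 h4 h5 h6 h7 h8
    have hmono : az (G ⧸ Subgroup.zpowers z) ≤ az G := by
      unfold az
      rw [div_le_div_iff₀ hkH hkG]
      have : 0 ≤ ((p : ℝ) - 1) * s * nU :=
        mul_nonneg (mul_nonneg (by linarith) (by linarith)) e2
      linarith
    have hcard1 : Nat.card G = p * Nat.card (G ⧸ Subgroup.zpowers z) := by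
      have h6 := Subgroup.card_eq_card_quotient_mul_card_subgroup (Subgroup.zpowers z)
      rw [h6, Nat.card_zpowers, hz, mul_comm]
    -- the image of `h`
    set f := QuotientGroup.mk' (Subgroup.zpowers z) with hfdef
    have hcen1 : ∀ x y : G ⧸ Subgroup.zpowers z,
        (x * f h * x⁻¹ * (f h)⁻¹) * y = y * (x * f h * x⁻¹ * (f h)⁻¹) := by
      intro x y
      obtain ⟨a, rfl⟩ := hf x
      obtain ⟨b, rfl⟩ := hf y
      have := congrArg f (hcen a b)
      simpa only [map_mul, map_inv] using this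
    have hrange : (del (f h) hcen1).range = D.map f := by
      ext q
      constructor
      · rintro ⟨x, rfl⟩
        obtain ⟨a, rfl⟩ := hf x
        refine ⟨del h hcen a, ⟨a, rfl⟩, ?_⟩
        simp only [del_apply, map_mul, map_inv]
      · rintro ⟨_, ⟨a, rfl⟩, rfl⟩
        refine ⟨f a, ?_⟩
        simp only [del_apply, map_mul, map_inv]
    have hcardD : Nat.card (del (f h) hcen1).range = p ^ (m + 1) := by
      rw [hrange]
      have h10 : Nat.card D = Nat.card (D.map f) * Nat.card (Subgroup.zpowers z) := by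
        have hle : Subgroup.zpowers z ≤ D := by rw [Subgroup.zpowers_le]; exact hzD
        set g : D →* (D.map f) := f.subgroupMap D with hg
        have hgs : Function.Surjective g := f.subgroupMap_surjective D
        have h11 : Nat.card D = Nat.card (D.map f) * Nat.card g.ker := by
          rw [← Subgroup.index_mul_card g.ker, Subgroup.index_ker]
          congr 1
          rw [MonoidHom.range_eq_top.2 hgs]
          exact Nat.card_congr (Equiv.subtypeUnivEquiv (fun _ => trivial))
        rw [h11]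
        congr 1
        apply Nat.card_congr
        refine ⟨fun x => ⟨x.1.1, ?_⟩, fun x => ⟨⟨x.1, hle x.2⟩, ?_⟩, ?_, ?_⟩
        · have h12 := x.2
          rw [MonoidHom.mem_ker] at h12
          have h13 := congrArg Subtype.val h12
          exact (hk _).1 h13
        · rw [MonoidHom.mem_ker]
          apply Subtype.ext
          exact (hk _).2 x.2
        · intro x; rfl
        · intro x; rfl
      rw [hD, Nat.card_zpowers, hz, pow_succ] at h10
      exact (Nat.eq_of_mul_eq_mul_right hp.out.pos h10).symm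
    obtain ⟨H, i1, i2, hc1, hc2, hc3, hc4, hc5⟩ :=
      ih (G ⧸ Subgroup.zpowers z) (hG.to_quotient _) (f h) hcen1 hcardD
    refine ⟨H, i1, i2, ?_, hc2, hc3.trans (index_quot_le _), hc4.trans hmono, ?_⟩
    · rw [hcard1, hc1]; ring
    · intro h10
      exact (hc5 h10).trans hmono

end Pool.Agent.AZ97
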