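import Pool.Agent.AZ97.A

set_option autoImplicit false
set_option linter.style.haveILetI false
set_option linter.unusedSectionVars false

open scoped BigOperators Classical MonoidAlgebra commutatorElement
open Representation Pool.Agent.Helper884.IC Pool.Agent.Q18.Anz

noncomputable section

namespace Pool.Agent.AZ97

attribute [local instance] Fintype.ofFinite

lemma rpow_nat_le {p : ℕ} (hp : 1 ≤ p) {j : ℕ} {x : ℝ} (h : (j : ℝ) ≤ x) :
    (p : ℝ) ^ j ≤ (p : ℝ) ^ x := by
  rw [← Real.rpow_natCast]
  exact Real.rpow_le_rpow_of_exponent_le (by exact_mod_cast hp) h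

theorem case1 {p : ℕ} [hp : Fact p.Prime] {A : ℝ} (hA : 1 ≤ A) (n : ℕ) :
    ∀ (G : Type) [Group G] [Fintype G], Nat.card G = p ^ n → ((commutator G).index : ℝ) ≤ A →
      az G ≤ A → (Nat.card G : ℝ) ≤ (p : ℝ) ^ (4 * A) * A ^ (1 + 8 * az G) := by
  induction n using Nat.strong_induction_on with
  | _ n ih =>
    intro G _ _ hG hL hz
    have hp1 : (1 : ℝ) ≤ p := by exact_mod_cast hp.out.one_lt.le
    have hpG : IsPGroup p G := IsPGroup.of_card hG
    have haz := az_nonneg G
    have hone : (1 : ℝ) ≤ (p : ℝ) ^ (4 * A) := Real.one_le_rpow hp1 (by linarith)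
    have hAA : A ≤ A ^ (1 + 8 * az G) := by
      calc A = A ^ (1 : ℝ) := (Real.rpow_one A).symm
        _ ≤ _ := Real.rpow_le_rpow_of_exponent_le hA (by linarith)
    by_cases hab : ∃ x y : G, x * y ≠ y * x
    · obtain ⟨h, ⟨y0, hy0⟩, hcen⟩ := exists_h hpG hab
      have hDnt : Nontrivial (del h hcen).range := by
        refine ⟨⟨⟨del h hcen y0, y0, rfl⟩, 1, ?_⟩⟩
        intro hcon
        have h1 : del h hcen y0 = 1 := congrArg Subtype.val hcon
        apply hy0
        rw [del_apply] at h1
        have h2 : y0 * h = h * y0 := by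
          calc y0 * h = (y0 * h * y0⁻¹ * h⁻¹) * h * y0 := by group
            _ = h * y0 := by rw [h1, one_mul]
        exact h2.symm
      obtain ⟨r, hr⟩ := IsPGroup.iff_card.1 (hpG.to_subgroup (del h hcen).range)
      have hr0 : r ≠ 0 := by
        rintro rfl
        have h1 : 1 < Nat.card (del h hcen).range := Finite.one_lt_card_iff_nontrivial.2 hDnt
        rw [hr, pow_zero] at h1
        exact lt_irrefl _ h1
      obtain ⟨m, rfl⟩ := Nat.exists_eq_succ_of_ne_zero hr0
      have hDA : ((p : ℝ) ^ (m + 1)) ≤ A := by
        have h1 := card_del_le h hcen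
        rw [hr] at h1
        have h2 : ((p ^ (m + 1) : ℕ) : ℝ) ≤ ((commutator G).index : ℝ) := by exact_mod_cast h1
        push_cast at h2
        exact h2.trans hL
      obtain ⟨H, i1, i2, hc1, hc2, hc3, hc4, hc5⟩ := gain m G hpG h hcen hr
      obtain ⟨j, hj⟩ := IsPGroup.iff_card.1 hc2
      have hGc : (Nat.card G : ℝ) = (p : ℝ) ^ (m + 1) * Nat.card H := by
        rw [hc1]; push_cast; ring
      by_cases hsmall : (kk H : ℝ) < 4 * A
      · have h8 := landau j H hj
        have h9 : (j : ℝ) ≤ 4 * A := by
          have : ((j + 1 : ℕ) : ℝ) ≤ kk H := by exact_mod_cast h8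
          push_cast at this
          linarith
        have h10 : (Nat.card H : ℝ) ≤ (p : ℝ) ^ (4 * A) := by
          rw [hj]; push_cast
          exact rpow_nat_le hp.out.one_lt.le h9
        rw [hGc]
        calc (p : ℝ) ^ (m + 1) * Nat.card H ≤ A * (p : ℝ) ^ (4 * A) :=
              mul_le_mul hDA h10 (Nat.cast_nonneg _) (by linarith)
          _ ≤ A ^ (1 + 8 * az G) * (p : ℝ) ^ (4 * A) :=
              mul_le_mul_of_nonneg_right hAA (by linarith)
          _ = _ := mul_comm _ _
      · push Not at hsmall
        have hjn : j < n := by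
          have h1 : p ^ n = p ^ (m + 1) * p ^ j := by rw [← hG, hc1, hj]
          rw [← pow_add] at h1
          have := Nat.pow_right_injective hp.out.two_le h1
          omega
        have hgain := hc5 (by linarith)
        have hIH := ih j hjn H hj
          (le_trans (by exact_mod_cast hc3) hL) (hc4.trans hz)
        rw [hGc]
        calc (p : ℝ) ^ (m + 1) * Nat.card H
            ≤ A * ((p : ℝ) ^ (4 * A) * A ^ (1 + 8 * az H)) :=
              mul_le_mul hDA hIH (Nat.cast_nonneg _) (by linarith)
          _ = (p : ℝ) ^ (4 * A) * A ^ (1 + 8 * (az H + 1 / 8)) := by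
              have e9 : A ^ (1 + 8 * (az H + 1 / 8)) = A * A ^ (1 + 8 * az H) := by
                rw [show (1 + 8 * (az H + 1 / 8) : ℝ) = 1 + (1 + 8 * az H) by ring,
                  Real.rpow_add (by linarith) 1 (1 + 8 * az H), Real.rpow_one]
              rw [e9]
              ring
          _ ≤ _ := by
              apply mul_le_mul_of_nonneg_left _ (by linarith)
              apply Real.rpow_le_rpow_of_exponent_le hA
              linarith
    · push Not at hab
      have h1 : commutator G = ⊥ := by
        rw [commutator_def, eq_bot_iff, Subgroup.commutator_le]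
        intro a _ b _
        rw [Subgroup.mem_bot, commutatorElement_eq_one_iff_mul_comm]
        exact hab a b
      rw [h1, Subgroup.index_bot] at hL
      calc (Nat.card G : ℝ) ≤ A := hL
        _ ≤ A ^ (1 + 8 * az G) := hAA
        _ = 1 * A ^ (1 + 8 * az G) := (one_mul _).symm
        _ ≤ _ := mul_le_mul_of_nonneg_right hone (by positivity)

/-- the number of nonlinear characters bounds the derived subgroup -/
theorem derived_bound {p : ℕ} [hp : Fact p.Prime] (m : ℕ) : ∀ (G : Type) [Group G] [Fintype G],
    IsPGroup p G → Nat.card (commutator G) = p ^ m →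
    (m : ℝ) * (p - 1) + (commutator G).index ≤ kk G := by
  induction m with
  | zero =>
    intro G _ _ hG hc
    have h1 : (commutator G).index ≤ kk G := by
      have hf : Function.Surjective (QuotientGroup.mk' (commutator G)) :=
        QuotientGroup.mk'_surjective _
      have h2 := irr_le hf
      have h3 : kk (G ⧸ commutator G) = (commutator G).index := by
        rw [kk_comm comm_quot]; rfl
      rw [← h3]; exact h2
    simp only [CharP.cast_eq_zero, zero_mul, zero_add]
    exact_mod_cast h1
  | succ m ih =>
    intro G _ _ hG hc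
    have hab : ∃ x y : G, x * y ≠ y * x := by
      by_contra hcon
      push Not at hcon
      have h1 : commutator G = ⊥ := by
        rw [commutator_def, eq_bot_iff, Subgroup.commutator_le]
        intro a _ b _
        rw [Subgroup.mem_bot, commutatorElement_eq_one_iff_mul_comm]
        exact hcon a b
      rw [h1, Subgroup.card_bot] at hc
      exact absurd hc (Nat.one_lt_pow (Nat.succ_ne_zero m) hp.out.one_lt).ne
    obtain ⟨h, ⟨y0, hy0⟩, hcen⟩ := exists_h hG hab
    have hDnt : Nontrivial (del h hcen).range := by
      refine ⟨⟨⟨del h hcen y0, y0, rfl⟩, 1, ?_⟩⟩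
      intro hcon
      have h1 : del h hcen y0 = 1 := congrArg Subtype.val hcon
      apply hy0
      rw [del_apply] at h1
      have h2 : y0 * h = h * y0 := by
        calc y0 * h = (y0 * h * y0⁻¹ * h⁻¹) * h * y0 := by group
          _ = h * y0 := by rw [h1, one_mul]
      exact h2.symm
    have hdvd : p ∣ Nat.card (del h hcen).range := by
      obtain ⟨r, hr⟩ := IsPGroup.iff_card.1 (hG.to_subgroup (del h hcen).range)
      rw [hr]
      have h1 : 1 < Nat.card (del h hcen).range := Finite.one_lt_card_iff_nontrivial.2 hDnt
      rw [hr] at h1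
      exact dvd_pow_self p (fun h => by rw [h, pow_zero] at h1; exact lt_irrefl _ h1)
    obtain ⟨⟨z, hzD⟩, hz⟩ := exists_prime_orderOf_dvd_card' p hdvd
    rw [Subgroup.orderOf_mk] at hz
    have hzc : ∀ g, g * z = z * g := by
      obtain ⟨x, rfl⟩ := hzD
      intro g
      exact (hcen x g).symm
    have hzG : z ∈ commutator G := by
      obtain ⟨x, rfl⟩ := hzD
      rw [commutator_def]
      exact Subgroup.commutator_mem_commutator (Subgroup.mem_top x) (Subgroup.mem_top h)
    haveI := zpowers_normal hzc
    have hf : Function.Surjective (QuotientGroup.mk' (Subgroup.zpowers z)) :=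
      QuotientGroup.mk'_surjective _
    have hk : ∀ y, QuotientGroup.mk' (Subgroup.zpowers z) y = 1 ↔ y ∈ Subgroup.zpowers z :=
      fun y => QuotientGroup.eq_one_iff y
    obtain ⟨s, c, zS, zU, nU, h1, h2, h3, h4, h5, h6, h7, h8, h9⟩ := data hp.out hf hzc hz hk
    have hle : Subgroup.zpowers z ≤ commutator G := by rw [Subgroup.zpowers_le]; exact hzG
    have e1 : commutator (G ⧸ Subgroup.zpowers z) =
        (commutator G).map (QuotientGroup.mk' (Subgroup.zpowers z)) := by
      rw [commutator_def, commutator_def, Subgroup.map_commutator,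
        ← MonoidHom.range_eq_map, MonoidHom.range_eq_top.2 hf]
    have e2 : (commutator (G ⧸ Subgroup.zpowers z)).index = (commutator G).index := by
      rw [e1]
      exact Subgroup.index_map_eq _ hf (by rw [QuotientGroup.ker_mk']; exact hle)
    have hcH : Nat.card (commutator (G ⧸ Subgroup.zpowers z)) = p ^ m := by
      have h10 := (commutator (G ⧸ Subgroup.zpowers z)).index_mul_card
      have h11 := (commutator G).index_mul_card
      have h12 := Subgroup.card_eq_card_quotient_mul_card_subgroup (Subgroup.zpowers z)
      rw [Nat.card_zpowers, hz] at h12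
      rw [e2] at h10
      have hidx : 0 < (commutator G).index := Nat.pos_of_ne_zero Subgroup.index_ne_zero_of_finite
      rw [h12, ← h10, hc, pow_succ, mul_assoc] at h11
      have h13 := Nat.eq_of_mul_eq_mul_left hidx h11
      exact (Nat.eq_of_mul_eq_mul_right hp.out.pos h13).symm
    have h10 := ih (G ⧸ Subgroup.zpowers z) (hG.to_quotient _) hcH
    rw [e2] at h10
    have h11 : ((p : ℝ) - 1) ≤ kk G - kk (G ⧸ Subgroup.zpowers z) := by
      rw [h4, h5]
      have : (1 : ℝ) ≤ p := by exact_mod_cast hp.out.one_lt.le
      nlinarith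
    push_cast
    linarith

end Pool.Agent.AZ97
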