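import Pool.Agent.AZ97.B

set_option autoImplicit false
set_option linter.style.haveILetI false
set_option linter.unusedSectionVars false

open scoped BigOperators Classical MonoidAlgebra commutatorElement
open Representation Pool.Agent.Helper884.IC Pool.Agent.Q18.Anz

noncomputable section

namespace Pool.Agent.AZ97

attribute [local instance] Fintype.ofFinite

lemma le_index {p : ℕ} (hp : p.Prime) {G : Type} [Group G] [Fintype G] (hG : IsPGroup p G)
    (hn : ∃ x y : G, x * y ≠ y * x) : p ≤ (commutator G).index := by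
  haveI : Fact p.Prime := ⟨hp⟩
  obtain ⟨n, hcard⟩ := IsPGroup.iff_card.1 hG
  have h1 : (commutator G).index ∣ p ^ n := by rw [← hcard]; exact Subgroup.index_dvd_card _
  obtain ⟨b, -, hb⟩ := (Nat.dvd_prime_pow hp).1 h1
  have hnt : Nontrivial G := by
    obtain ⟨x, y, hxy⟩ := hn
    exact ⟨⟨x * y, y * x, hxy⟩⟩
  haveI := hG.isNilpotent
  have h2 : commutator G < ⊤ := Group.IsSolvable.commutator_lt_top_of_nontrivial G
  have h3 : (commutator G).index ≠ 1 := fun h => h2.ne (Subgroup.index_eq_one.1 h)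
  have hb0 : b ≠ 0 := by
    rintro rfl
    exact h3 (by rw [hb, pow_zero])
  rw [hb]
  exact Nat.le_self_pow hb0 p

/-- the dichotomy -/
theorem main {p : ℕ} (hp : p.Prime) {G : Type} [Group G] [Fintype G] (hG : IsPGroup p G)
    (hn : ∃ x y : G, x * y ≠ y * x) :
    (Nat.card G : ℝ) ≤ (4 * az G) ^ (24 * az G + 1) ∨
      (az G < ((kk G - (commutator G).index : ℕ) : ℝ) ∧
        ((kk G - (commutator G).index : ℕ) : ℝ) ≤ 4 * az G ∧
        (Nat.card G : ℝ) * (((kk G - (commutator G).index : ℕ) : ℝ) - az G) ≤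
          2 * ((kk G - (commutator G).index : ℕ) : ℝ) ^ 2 *
            2 ^ (kk G - (commutator G).index)) := by
  haveI : Fact p.Prime := ⟨hp⟩
  obtain ⟨n, hcard⟩ := IsPGroup.iff_card.1 hG
  have hk0 : (0 : ℝ) < kk G := kk_posR G
  have hLk := index_lt_kk hn
  have hpL := le_index hp hG hn
  set L := (commutator G).index with hL
  obtain ⟨N, hN⟩ : ∃ N, N = kk G - L := ⟨_, rfl⟩
  rw [← hN]
  have hkNL : kk G = N + L := by omega
  have hN1 : 1 ≤ N := by omega
  have hN1' : (1 : ℝ) ≤ N := by exact_mod_cast hN1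
  set a := az G with ha
  have ha0 : 0 ≤ a := az_nonneg G
  have hz : (zz G : ℝ) = a * kk G := by
    rw [ha]; unfold az; field_simp
  have hdich := dichotomy hG
  rw [← hL, ← hN] at hdich
  have hdich' : (N : ℝ) * L ≤ 2 * (a * (N + L)) := by
    have h1 : ((N * L : ℕ) : ℝ) ≤ ((2 * zz G : ℕ) : ℝ) := by exact_mod_cast hdich
    push_cast at h1
    rw [hz, hkNL] at h1
    push_cast at h1
    exact h1
  have hN0 : (0 : ℝ) ≤ N := Nat.cast_nonneg _
  have hL0 : (0 : ℝ) ≤ L := Nat.cast_nonneg _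
  have hpLr : (p : ℝ) ≤ L := by exact_mod_cast hpL
  have hp1 : (1 : ℝ) ≤ p := by exact_mod_cast hp.one_lt.le
  by_cases hcase : (L : ℝ) ≤ 4 * a
  · left
    have hA1 : 1 ≤ 4 * a := by linarith
    have h1 := case1 (p := p) hA1 n G hcard hcase (by linarith)
    refine h1.trans ?_
    rw [← ha]
    calc (p : ℝ) ^ (4 * (4 * a)) * (4 * a) ^ (1 + 8 * a)
        ≤ (4 * a) ^ (4 * (4 * a)) * (4 * a) ^ (1 + 8 * a) := by
          apply mul_le_mul_of_nonneg_right _ (Real.rpow_nonneg (by linarith) _)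
          exact Real.rpow_le_rpow (by linarith) (by linarith) (by linarith)
      _ = _ := by
          rw [← Real.rpow_add (by linarith)]
          congr 1; ring
  · right
    push Not at hcase
    have hN4 : (N : ℝ) ≤ 4 * a := by
      by_contra hcon
      push Not at hcon
      rcases le_total (N : ℝ) L with h1 | h1
      · have h2 : (N : ℝ) * L ≤ 4 * a * L := by nlinarith
        have hLpos : (0 : ℝ) < L := by linarith
        nlinarith
      · have h2 : (N : ℝ) * L ≤ 4 * a * N := by nlinarith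
        have hNpos : (0 : ℝ) < N := by linarith
        nlinarith
    obtain ⟨hf1, hf2⟩ := few hG
    rw [← hL, ← hN] at hf1 hf2
    have hf1' : (zz G : ℝ) + N ≤ N * kk G := by exact_mod_cast hf1
    have hf2' : (N : ℝ) * kk G ≤ zz G + 2 * N ^ 2 := by exact_mod_cast hf2
    have hNa : a < N := by
      by_contra hcon
      push Not at hcon
      rw [hz] at hf1'
      nlinarith
    refine ⟨hNa, hN4, ?_⟩
    have h2 : (kk G : ℝ) * (N - a) ≤ 2 * N ^ 2 := by
      rw [hz] at hf2'
      linarith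
    obtain ⟨m, hm⟩ := IsPGroup.iff_card.1 (hG.to_subgroup (commutator G))
    have h3 := derived_bound m G hG hm
    rw [← hL, hkNL] at h3
    push_cast at h3
    have h4 : m * (p - 1) ≤ N := by
      have h5 : ((m * (p - 1) : ℕ) : ℝ) ≤ N := by
        rw [Nat.cast_mul, Nat.cast_sub hp.one_lt.le]
        push_cast
        linarith
      exact_mod_cast h5
    have h5 : Nat.card (commutator G) ≤ 2 ^ N := by
      rw [hm]
      have h6 : p ≤ 2 ^ (p - 1) := by
        have : p - 1 < 2 ^ (p - 1) := Nat.lt_two_pow_self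
        omega
      calc p ^ m ≤ (2 ^ (p - 1)) ^ m := Nat.pow_le_pow_left h6 m
        _ = 2 ^ (m * (p - 1)) := by rw [← pow_mul, mul_comm]
        _ ≤ 2 ^ N := Nat.pow_le_pow_right (by norm_num) h4
    have h6 : (Nat.card G : ℝ) = L * Nat.card (commutator G) := by
      rw [← (commutator G).index_mul_card]; push_cast; rfl
    have h7 : (Nat.card (commutator G) : ℝ) ≤ 2 ^ N := by exact_mod_cast h5
    have h8 : (L : ℝ) ≤ kk G := by exact_mod_cast hLk.le
    have h9 : 0 ≤ (N : ℝ) - a := by linarith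
    calc (Nat.card G : ℝ) * (N - a) ≤ (kk G * 2 ^ N) * (N - a) := by
          apply mul_le_mul_of_nonneg_right _ h9
          rw [h6]
          exact mul_le_mul h8 h7 (Nat.cast_nonneg _) (by linarith)
      _ = kk G * (N - a) * 2 ^ N := by ring
      _ ≤ _ := mul_le_mul_of_nonneg_right h2 (by positivity)

/-- the uniform bound -/
theorem main2 {p : ℕ} (hp : p.Prime) {G : Type} [Group G] [Fintype G] (hG : IsPGroup p G)
    (hn : ∃ x y : G, x * y ≠ y * x) :
    (Nat.card G : ℝ) * (⌊az G⌋₊ + 1 - az G) ≤ (4 * az G + 4) ^ (24 * az G + 3) := by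
  have ha0 : 0 ≤ az G := az_nonneg G
  have h1 := Nat.lt_floor_add_one (az G)
  have h2 := Nat.floor_le ha0
  have hbase : (1 : ℝ) ≤ 4 * az G + 4 := by linarith
  rcases main hp hG hn with h | ⟨h3, h4, h5⟩
  · calc (Nat.card G : ℝ) * (⌊az G⌋₊ + 1 - az G) ≤ (Nat.card G : ℝ) * 1 :=
          mul_le_mul_of_nonneg_left (by linarith) (Nat.cast_nonneg _)
      _ ≤ (4 * az G) ^ (24 * az G + 1) := by rw [mul_one]; exact h
      _ ≤ (4 * az G + 4) ^ (24 * az G + 1) :=
          Real.rpow_le_rpow (by linarith) (by linarith) (by linarith)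
      _ ≤ _ := Real.rpow_le_rpow_of_exponent_le hbase (by linarith)
  · set N := kk G - (commutator G).index
    have h6 : ((⌊az G⌋₊ : ℝ) + 1) ≤ N := by
      have : ⌊az G⌋₊ < N := (Nat.floor_lt ha0).2 h3
      exact_mod_cast this
    have h7 : (2 : ℝ) ^ N = (2 : ℝ) ^ (N : ℝ) := (Real.rpow_natCast 2 N).symm
    have h8 : (2 : ℝ) ^ (N : ℝ) ≤ (4 * az G + 4) ^ (24 * az G) :=
      calc (2 : ℝ) ^ (N : ℝ) ≤ (4 * az G + 4) ^ (N : ℝ) :=
            Real.rpow_le_rpow (by norm_num) (by linarith) (by positivity)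
        _ ≤ _ := Real.rpow_le_rpow_of_exponent_le hbase (by linarith)
    have h9 : 2 * (N : ℝ) ^ 2 ≤ (4 * az G + 4) ^ (3 : ℝ) := by
      rw [show (3 : ℝ) = ((3 : ℕ) : ℝ) by norm_num, Real.rpow_natCast]
      have h10 : (N : ℝ) ^ 2 ≤ (4 * az G + 4) ^ 2 :=
        pow_le_pow_left₀ (Nat.cast_nonneg _) (by linarith) 2
      nlinarith [sq_nonneg (4 * az G + 4)]
    calc (Nat.card G : ℝ) * (⌊az G⌋₊ + 1 - az G) ≤ (Nat.card G : ℝ) * (N - az G) :=
          mul_le_mul_of_nonneg_left (by linarith) (Nat.cast_nonneg _)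
      _ ≤ 2 * (N : ℝ) ^ 2 * 2 ^ N := h5
      _ ≤ (4 * az G + 4) ^ (3 : ℝ) * (4 * az G + 4) ^ (24 * az G) := by
          rw [h7]
          exact mul_le_mul h9 h8 (by positivity) (Real.rpow_nonneg (by linarith) _)
      _ = _ := by
          rw [← Real.rpow_add (by linarith)]
          congr 1; ring

end Pool.Agent.AZ97
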