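import Pool.Agent.AZ97.C

set_option autoImplicit false
set_option linter.style.haveILetI false
set_option linter.unusedSectionVars false

open scoped BigOperators Classical MonoidAlgebra commutatorElement
open Representation Pool.Agent.Helper884.IC Pool.Agent.Q18.Anz

noncomputable section

namespace Pool.Agent.AZ97

attribute [local instance] Fintype.ofFinite

/-- the Heisenberg group of dimension `2 m + 1` over `ZMod p`, times `(ZMod p) ^ t` -/
@[ext] structure Heis (p m t : ℕ) where
  c : ZMod p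
  x : Fin m → ZMod p
  y : Fin m → ZMod p
  w : Fin t → ZMod p

namespace Heis

variable {p m t : ℕ}

instance : Group (Heis p m t) where
  mul a b := ⟨a.c + b.c + ∑ i, a.x i * b.y i, a.x + b.x, a.y + b.y, a.w + b.w⟩
  one := ⟨0, 0, 0, 0⟩
  inv a := ⟨-a.c + ∑ i, a.x i * a.y i, -a.x, -a.y, -a.w⟩
  mul_assoc a b c := by
    ext i
    · show a.c + b.c + ∑ i, a.x i * b.y i + c.c + ∑ i, (a.x i + b.x i) * c.y i
        = a.c + (b.c + c.c + ∑ i, b.x i * c.y i) + ∑ i, a.x i * (b.y i + c.y i)
      simp only [add_mul, mul_add, Finset.sum_add_distrib]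
      ring
    · show a.x i + b.x i + c.x i = a.x i + (b.x i + c.x i)
      ring
    · show a.y i + b.y i + c.y i = a.y i + (b.y i + c.y i)
      ring
    · show a.w i + b.w i + c.w i = a.w i + (b.w i + c.w i)
      ring
  one_mul a := by
    ext i
    · show 0 + a.c + ∑ i, (0 : ZMod p) * a.y i = a.c
      simp
    · show 0 + a.x i = a.x i
      ring
    · show 0 + a.y i = a.y i
      ring
    · show 0 + a.w i = a.w i
      ring
  mul_one a := by
    ext i
    · show a.c + 0 + ∑ i, a.x i * (0 : ZMod p) = a.c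
      simp
    · show a.x i + 0 = a.x i
      ring
    · show a.y i + 0 = a.y i
      ring
    · show a.w i + 0 = a.w i
      ring
  inv_mul_cancel a := by
    ext i
    · show -a.c + ∑ i, a.x i * a.y i + a.c + ∑ i, -a.x i * a.y i = 0
      simp
    · show -a.x i + a.x i = 0
      ring
    · show -a.y i + a.y i = 0
      ring
    · show -a.w i + a.w i = 0
      ring

lemma mul_def (a b : Heis p m t) :
    a * b = ⟨a.c + b.c + ∑ i, a.x i * b.y i, a.x + b.x, a.y + b.y, a.w + b.w⟩ := rfl

def equiv (p m t : ℕ) :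
    Heis p m t ≃ ZMod p × (Fin m → ZMod p) × (Fin m → ZMod p) × (Fin t → ZMod p) where
  toFun a := (a.c, a.x, a.y, a.w)
  invFun a := ⟨a.1, a.2.1, a.2.2.1, a.2.2.2⟩
  left_inv _ := rfl
  right_inv _ := rfl

instance [NeZero p] : Fintype (Heis p m t) := Fintype.ofEquiv _ (equiv p m t).symm

lemma card [NeZero p] : Nat.card (Heis p m t) = p * (p ^ (2 * m) * p ^ t) := by
  rw [Nat.card_congr (equiv p m t), Nat.card_prod, Nat.card_prod, Nat.card_prod, Nat.card_zmod,
    Nat.card_fun, Nat.card_fun, Nat.card_zmod, Nat.card_fin, Nat.card_fin]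
  ring

/-- the symplectic form -/
def om (a b : Heis p m t) : ZMod p := ∑ i, a.x i * b.y i - ∑ i, b.x i * a.y i

lemma comm_iff (a b : Heis p m t) : a * b = b * a ↔ om a b = 0 := by
  rw [mul_def, mul_def, Heis.ext_iff]
  constructor
  · rintro ⟨h, -, -, -⟩
    simp only at h
    unfold om
    linear_combination h
  · intro h
    refine ⟨?_, add_comm _ _, add_comm _ _, add_comm _ _⟩
    simp only
    unfold om at h
    linear_combination h

lemma conj (a b : Heis p m t) : a * b * a⁻¹ = ⟨b.c + om a b, b.x, b.y, b.w⟩ := by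
  rw [mul_inv_eq_iff_eq_mul, mul_def, mul_def]
  ext i
  · simp only [om]; ring
  · simp only [Pi.add_apply]; ring
  · simp only [Pi.add_apply]; ring
  · simp only [Pi.add_apply]; ring

/-- noncentral elements -/
def Nc (a : Heis p m t) : Prop := a.x ≠ 0 ∨ a.y ≠ 0

lemma om_surj [Fact p.Prime] {b : Heis p m t} (hb : Nc b) (e : ZMod p) :
    ∃ a : Heis p m t, om a b = e := by
  rcases hb with h | h
  · obtain ⟨i, hi⟩ := Function.ne_iff.1 h
    refine ⟨⟨0, 0, Pi.single i (-(b.x i)⁻¹ * e), 0⟩, ?_⟩
    simp only [om, Pi.zero_apply, zero_mul, Finset.sum_const_zero, zero_sub]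
    rw [Finset.sum_eq_single i]
    · rw [Pi.single_eq_same]
      have : b.x i ≠ 0 := hi
      field_simp
    · intro j _ hj
      rw [Pi.single_eq_of_ne hj, mul_zero]
    · intro h; exact absurd (Finset.mem_univ _) h
  · obtain ⟨i, hi⟩ := Function.ne_iff.1 h
    refine ⟨⟨0, Pi.single i ((b.y i)⁻¹ * e), 0, 0⟩, ?_⟩
    simp only [om, Pi.zero_apply, mul_zero, Finset.sum_const_zero, sub_zero]
    rw [Finset.sum_eq_single i]
    · rw [Pi.single_eq_same]
      have : b.y i ≠ 0 := hi
      field_simp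
    · intro j _ hj
      rw [Pi.single_eq_of_ne hj, zero_mul]
    · intro h; exact absurd (Finset.mem_univ _) h

lemma isConj_iff' [Fact p.Prime] {b : Heis p m t} (hb : Nc b) (a : Heis p m t) :
    IsConj b a ↔ a.x = b.x ∧ a.y = b.y ∧ a.w = b.w := by
  rw [isConj_iff]
  constructor
  · rintro ⟨c, rfl⟩
    rw [conj]
    exact ⟨rfl, rfl, rfl⟩
  · rintro ⟨h1, h2, h3⟩
    obtain ⟨c, hc⟩ := om_surj hb (a.c - b.c)
    refine ⟨c, ?_⟩
    rw [conj, hc]
    ext i
    · simp
    · simp [h1]
    · simp [h2]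
    · simp [h3]

lemma cen_nc [Fact p.Prime] {b : Heis p m t} (hb : Nc b) : p * cen b = Nat.card (Heis p m t) := by
  rw [← card_class_mul b]
  congr 1
  have e : {y : Heis p m t // IsConj b y} ≃ ZMod p :=
    { toFun := fun y => y.1.c
      invFun := fun e => ⟨⟨e, b.x, b.y, b.w⟩, (isConj_iff' hb _).2 ⟨rfl, rfl, rfl⟩⟩
      left_inv := by
        rintro ⟨y, hy⟩
        have := (isConj_iff' hb _).1 hy
        apply Subtype.ext
        ext i
        · rfl
        · simp [this.1]
        · simp [this.2.1]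
        · simp [this.2.2]
      right_inv := fun e => rfl }
  rw [Nat.card_congr e, Nat.card_zmod]

lemma cen_c [NeZero p] {b : Heis p m t} (hb : ¬ Nc b) : cen b = Nat.card (Heis p m t) := by
  unfold Nc at hb
  push Not at hb
  unfold cen
  have : Subgroup.centralizer ({b} : Set (Heis p m t)) = ⊤ := by
    ext a
    rw [Subgroup.mem_centralizer_singleton_iff, comm_iff]
    simp [om, hb.1, hb.2]
  rw [this, Subgroup.card_top]

lemma card_central [NeZero p] :
    (Finset.univ.filter (fun a : Heis p m t => ¬ Nc a)).card = p * p ^ t := by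
  have h1 : (Finset.univ.filter (fun a : Heis p m t => ¬ Nc a)) =
      (Finset.univ : Finset (ZMod p × (Fin t → ZMod p))).image
        (fun e => (⟨e.1, 0, 0, e.2⟩ : Heis p m t)) := by
    ext a
    constructor
    · intro h
      have h' := (Finset.mem_filter.1 h).2
      unfold Nc at h'
      rw [not_or, not_not, not_not] at h'
      refine Finset.mem_image.2 ⟨(a.c, a.w), Finset.mem_univ _, ?_⟩
      ext i
      · rfl
      · rw [h'.1]
      · rw [h'.2]
      · rfl
    · intro h
      obtain ⟨t, -, rfl⟩ := Finset.mem_image.1 h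
      refine Finset.mem_filter.2 ⟨Finset.mem_univ _, ?_⟩
      unfold Nc
      simp
  rw [h1, Finset.card_image_of_injective, Finset.card_univ, Fintype.card_prod, ZMod.card,
    Fintype.card_fun, ZMod.card, Fintype.card_fin]
  rintro ⟨a, a'⟩ ⟨b, b'⟩ h
  exact Prod.ext (congrArg Heis.c h) (congrArg Heis.w h)

lemma kk_heis [Fact p.Prime] : kk (Heis p m t) + p ^ t = p * p ^ t + p ^ (2 * m) * p ^ t := by
  have h1 := kk_mul (G := Heis p m t)
  have hp := (Fact.out : p.Prime).pos
  have h2 : p * ∑ g : Heis p m t, cen g + p * p ^ t * Nat.card (Heis p m t) =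
      p * (p * p ^ t * Nat.card (Heis p m t)) +
        Nat.card (Heis p m t) * Nat.card (Heis p m t) := by
    rw [← Finset.sum_filter_add_sum_filter_not Finset.univ (fun a : Heis p m t => ¬ Nc a)]
    have e1 : ∑ g ∈ Finset.univ.filter (fun a : Heis p m t => ¬ Nc a), cen g =
        p * p ^ t * Nat.card (Heis p m t) := by
      rw [Finset.sum_congr rfl (fun g hg => cen_c (Finset.mem_filter.1 hg).2), Finset.sum_const,
        card_central, smul_eq_mul]
    have e2 : p * ∑ g ∈ Finset.univ.filter (fun a : Heis p m t => ¬ ¬ Nc a), cen g +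
        p * p ^ t * Nat.card (Heis p m t) = Nat.card (Heis p m t) * Nat.card (Heis p m t) := by
      rw [Finset.mul_sum, Finset.sum_congr rfl
        (fun g hg => cen_nc (not_not.1 (Finset.mem_filter.1 hg).2)), Finset.sum_const, smul_eq_mul,
        ← add_mul]
      congr 1
      have h3 := Finset.card_filter_add_card_filter_not (s := (Finset.univ : Finset (Heis p m t)))
        (fun a : Heis p m t => ¬ Nc a)
      rw [card_central, Finset.card_univ, ← Nat.card_eq_fintype_card] at h3
      rw [← h3, add_comm]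
    rw [mul_add, e1, add_assoc, e2]
  rw [← h1] at h2
  have hG : 0 < Nat.card (Heis p m t) := Nat.card_pos
  have h3 : Nat.card (Heis p m t) * (p * (kk (Heis p m t) + p ^ t)) =
      Nat.card (Heis p m t) * (p * (p * p ^ t + p ^ (2 * m) * p ^ t)) := by
    have : Nat.card (Heis p m t) * Nat.card (Heis p m t) =
        Nat.card (Heis p m t) * (p * (p ^ (2 * m) * p ^ t)) := by rw [card]
    rw [this] at h2
    calc _ = p * (Nat.card (Heis p m t) * kk (Heis p m t)) +
          p * p ^ t * Nat.card (Heis p m t) := by ring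
      _ = _ := h2
      _ = _ := by ring
  exact Nat.eq_of_mul_eq_mul_left hp (Nat.eq_of_mul_eq_mul_left hG h3)

lemma pgroup [Fact p.Prime] : IsPGroup p (Heis p m t) := by
  apply IsPGroup.of_card (n := 2 * m + t + 1)
  rw [card]; ring

lemma nonab [Fact p.Prime] (hm : 1 ≤ m) : ∃ x y : Heis p m t, x * y ≠ y * x := by
  refine ⟨⟨0, Pi.single ⟨0, hm⟩ 1, 0, 0⟩, ⟨0, 0, Pi.single ⟨0, hm⟩ 1, 0⟩, ?_⟩
  rw [Ne, comm_iff]
  simp only [om, Pi.zero_apply, mul_zero, Finset.sum_const_zero, sub_zero]
  rw [Finset.sum_eq_single ⟨0, hm⟩]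
  · simp
  · intro j _ hj
    rw [Pi.single_eq_of_ne hj, mul_zero]
  · intro h; exact absurd (Finset.mem_univ _) h

/-- the quotient by the derived subgroup -/
def pr : Heis p m t →*
    Multiplicative ((Fin m → ZMod p) × (Fin m → ZMod p) × (Fin t → ZMod p)) where
  toFun a := Multiplicative.ofAdd (a.x, a.y, a.w)
  map_one' := rfl
  map_mul' _ _ := rfl

lemma index_eq [Fact p.Prime] (hm : 1 ≤ m) :
    (commutator (Heis p m t)).index = p ^ (2 * m) * p ^ t := by
  apply le_antisymm
  · obtain ⟨r, hr⟩ := IsPGroup.iff_card.1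
      ((pgroup (p := p) (m := m) (t := t)).to_subgroup (commutator (Heis p m t)))
    have hr0 : r ≠ 0 := by
      rintro rfl
      rw [pow_zero, Subgroup.card_eq_one] at hr
      obtain ⟨x, y, hxy⟩ := nonab (p := p) (m := m) (t := t) hm
      apply hxy
      have h3 : ⁅x, y⁆ ∈ commutator (Heis p m t) := by
        rw [commutator_def]
        exact Subgroup.commutator_mem_commutator (Subgroup.mem_top _) (Subgroup.mem_top _)
      rw [hr, Subgroup.mem_bot, commutatorElement_eq_one_iff_mul_comm] at h3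
      exact h3
    have hp := (Fact.out : p.Prime)
    have h1 := (commutator (Heis p m t)).index_mul_card
    rw [hr, card] at h1
    have h2 : p ≤ p ^ r := Nat.le_self_pow hr0 p
    have h3 : (commutator (Heis p m t)).index * p ≤ p ^ (2 * m) * p ^ t * p := by
      calc _ ≤ (commutator (Heis p m t)).index * p ^ r := Nat.mul_le_mul_left _ h2
        _ = _ := by rw [h1]; ring
    exact Nat.le_of_mul_le_mul_right h3 hp.pos
  · have h1 : (pr (p := p) (m := m) (t := t)).ker.index = p ^ (2 * m) * p ^ t := by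
      rw [Subgroup.index_ker, MonoidHom.range_eq_top.2, Subgroup.card_top]
      · rw [Nat.card_congr Multiplicative.toAdd, Nat.card_prod, Nat.card_prod, Nat.card_fun,
          Nat.card_fun, Nat.card_zmod, Nat.card_fin, Nat.card_fin]
        ring
      · intro a
        exact ⟨⟨0, a.toAdd.1, a.toAdd.2.1, a.toAdd.2.2⟩, rfl⟩
    rw [← h1]
    apply Nat.le_of_dvd (Nat.pos_of_ne_zero Subgroup.index_ne_zero_of_finite)
    apply Subgroup.index_dvd_of_le
    exact Abelianization.commutator_subset_ker _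

end Heis

/-- the blow-up -/
theorem blow {p : ℕ} (hp : p.Prime) (t M : ℕ) : ∃ (G : Type) (_ : Group G) (_ : Fintype G),
    IsPGroup p G ∧ (∃ x y : G, x * y ≠ y * x) ∧ M ≤ Nat.card G ∧
    az G < (p : ℝ) ^ t * (p - 1) ∧
    (Nat.card G : ℝ) * ((p : ℝ) ^ t * (p - 1) - az G) ≤ 2 * p * ((p : ℝ) ^ t * (p - 1)) ^ 2 := by
  haveI : Fact p.Prime := ⟨hp⟩
  set m := M + 1 with hm
  refine ⟨Heis p m t, inferInstance, inferInstance, Heis.pgroup, Heis.nonab (by omega), ?_, ?_⟩
  · rw [Heis.card]
    have h1 : 2 * m < p ^ (2 * m) := Nat.lt_pow_self hp.one_lt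
    have h2 : p ^ (2 * m) * 1 ≤ p ^ (2 * m) * p ^ t := Nat.mul_le_mul_left _ (Nat.one_le_pow _ _ hp.pos)
    have h3 : p ^ (2 * m) * p ^ t ≤ p * (p ^ (2 * m) * p ^ t) := Nat.le_mul_of_pos_left _ hp.pos
    omega
  · have hk := Heis.kk_heis (p := p) (m := m) (t := t)
    have hi := Heis.index_eq (p := p) (m := m) (t := t) (by omega)
    have hN : kk (Heis p m t) - (commutator (Heis p m t)).index = p ^ t * (p - 1) := by
      rw [hi, Nat.mul_sub, mul_one, mul_comm (p ^ t) p]
      have : p ^ t ≤ p * p ^ t := Nat.le_mul_of_pos_left _ hp.pos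
      omega
    obtain ⟨h1, h2⟩ := few (Heis.pgroup (p := p) (m := m) (t := t))
    rw [hN] at h1 h2
    have hpc : ((p ^ t * (p - 1) : ℕ) : ℝ) = (p : ℝ) ^ t * ((p : ℝ) - 1) := by
      rw [Nat.cast_mul, Nat.cast_sub hp.one_lt.le, Nat.cast_one, Nat.cast_pow]
    set N : ℝ := (p : ℝ) ^ t * ((p : ℝ) - 1) with hNdef
    have h1' : (zz (Heis p m t) : ℝ) + N ≤ N * kk (Heis p m t) := by
      rw [← hpc]; exact_mod_cast h1
    have h2' : N * kk (Heis p m t) ≤ zz (Heis p m t) + 2 * N ^ 2 := by
      rw [← hpc]; exact_mod_cast h2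
    have hk0 := kk_posR (Heis p m t)
    have hp1 : (1 : ℝ) < p := by exact_mod_cast hp.one_lt
    have hN0 : 0 < N := mul_pos (by positivity) (by linarith)
    have hz : (zz (Heis p m t) : ℝ) = az (Heis p m t) * kk (Heis p m t) := by
      unfold az; field_simp
    have h3 : az (Heis p m t) < N := by
      unfold az
      rw [div_lt_iff₀ hk0]
      linarith
    refine ⟨h3, ?_⟩
    have h4 : (Nat.card (Heis p m t) : ℝ) ≤ p * kk (Heis p m t) := by
      have h5 : p ^ (2 * m) * p ^ t ≤ kk (Heis p m t) := by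
        rw [← hi]; exact (index_lt_kk (Heis.nonab (p := p) (m := m) (t := t) (by omega))).le
      rw [Heis.card]
      have h6 : ((p ^ (2 * m) * p ^ t : ℕ) : ℝ) ≤ kk (Heis p m t) := by exact_mod_cast h5
      rw [Nat.cast_mul]
      exact mul_le_mul_of_nonneg_left h6 (by linarith)
    calc (Nat.card (Heis p m t) : ℝ) * (N - az (Heis p m t))
        ≤ p * kk (Heis p m t) * (N - az (Heis p m t)) :=
          mul_le_mul_of_nonneg_right h4 (by linarith)
      _ = p * (N * kk (Heis p m t) - zz (Heis p m t)) := by rw [hz]; ring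
      _ ≤ p * (2 * N ^ 2) := mul_le_mul_of_nonneg_left (by linarith) (by linarith)
      _ = _ := by ring

end Pool.Agent.AZ97
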